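import Pool.Agent.Results.MP_2d259b_nt.FewExceptionalCurves
import Pool.Agent.X174.WinRat

/-!
# Integer points on ALL plane curves with coefficients in cubes around thin sequences: an explicit polynomial bound

Let `d ≥ 4`. The polynomials of degree `d` in two variables have `N = (d + 1) (d + 2) / 2` coefficients. For every sequence
`v ≥ 1` of exponent of convergence at most `τ` (for `v_i = i ^ a` this is `1 / a`, for `v_i = b ^ i` it is `0`) and `ρ < 1`,
outside a set of `x ∈ ℝ^N` of Hausdorff dimension at most `(4 d - 2 + τ) / (1 - ρ)`, for all but finitely many `i` and ALL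
`F ∈ ℤ[x, y]` of degree `d` with coefficients in the cube with centre `x v_i` and side `2 v_i ^ ρ`, which are irreducible
over `ℚ` and have a squarefree leading form, all integer zeros `(x, y)` of `F` satisfy
`max(|x|, |y|) ≤ ((d + 1) h(F)) ^ C`, `C = 10^11 36^d (d + 1)^13`, where `h(F)` is the sum of the absolute values of the
coefficients of `F`.

The number of exceptions is from the starting result `FewExceptionalCurves`.
-/

set_option autoImplicit false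

open MvPolynomial

namespace Pool.Agent.Results.MP_2d259b_nt.CurvesInCubes

/-- the exponent of convergence of the sequence `v` is at most `τ` -/
def ExpLe (v : ℕ → ℝ) (τ : ℝ) : Prop := ∀ t : ℝ, τ < t → Summable (fun n : ℕ => (v n) ^ (-t))

/-- the exponents `(a, b)` of the monomials `x ^ a y ^ b` of degree at most `d` -/
abbrev Mon (d : ℕ) : Type := {m : Fin (d + 1) × Fin (d + 1) // (m.1 : ℕ) + (m.2 : ℕ) ≤ d}

/-- the monomial `x ^ a y ^ b` -/
noncomputable def mon {d : ℕ} (m : Mon d) : Fin 2 →₀ ℕ := Finsupp.single 0 (m.1.1 : ℕ) + Finsupp.single 1 (m.1.2 : ℕ)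

/-- `F` is of degree `d` and the coefficients of `F` differ by at most `δ` from the numbers `y_m` -/
def Near {d : ℕ} (y : Mon d → ℝ) (δ : ℝ) (F : MvPolynomial (Fin 2) ℤ) : Prop :=
  F.totalDegree = d ∧ ∀ m : Mon d, |((F.coeff (mon m) : ℤ) : ℝ) - y m| ≤ δ

lemma exists_mon {d : ℕ} (m : Fin 2 →₀ ℕ) (hm : m 0 + m 1 ≤ d) : ∃ p : Mon d, mon p = m := by
  refine ⟨⟨(⟨m 0, by omega⟩, ⟨m 1, by omega⟩), by simpa using hm⟩, ?_⟩
  ext i
  fin_cases i <;> simp [mon]

/-- **Theorem.** Let `d ≥ 4`. For every sequence `v ≥ 1` of exponent of convergence at most `τ ≥ 0` and every `ρ < 1` there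
is a set `E ⊂ ℝ^((d + 1) (d + 2) / 2)` of Hausdorff dimension at most `(4 d - 2 + τ) / (1 - ρ)` such that for each `x`
outside `E`, for all but finitely many `i`: for ALL `F ∈ ℤ[x, y]` of degree `d` whose coefficients differ from those of
`v_i x` by at most `v_i ^ ρ` and which are irreducible over `ℚ` with a squarefree leading form, all integer zeros `(a, b)`
of `F` satisfy `max(|a|, |b|) ≤ ((d + 1) h(F)) ^ C`, `C = 10^11 36^d (d + 1)^13`. The sequences `v_i = (i + 1) ^ a` and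
`v_i = b ^ i` have exponent of convergence at most `1 / a` and `0`. -/
theorem result :
    (∀ d : ℕ, 4 ≤ d → ∀ (v : ℕ → ℝ) (τ ρ : ℝ), (∀ i, 1 ≤ v i) → 0 ≤ τ → ExpLe v τ → ρ < 1 →
      ∃ E : Set (Mon d → ℝ), dimH E ≤ ENNReal.ofReal ((4 * (d : ℝ) - 2 + τ) / (1 - ρ)) ∧
        ∀ x : Mon d → ℝ, x ∉ E → ∃ i₀ : ℕ, ∀ i : ℕ, i₀ ≤ i →
          ∀ F : MvPolynomial (Fin 2) ℤ, Near (fun m => x m * v i) ((v i) ^ ρ) F →
            Irreducible (map (Int.castRingHom ℚ) F) →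
            Squarefree (map (Int.castRingHom ℚ) (homogeneousComponent d F)) →
            ∀ a b : ℤ, eval ![a, b] F = 0 →
              max a.natAbs b.natAbs ≤
                ((d + 1) * ∑ m ∈ F.support, (F.coeff m).natAbs) ^ (10 ^ 11 * 36 ^ d * (d + 1) ^ 13)) ∧
    (∀ a : ℝ, 0 < a → ExpLe (fun n : ℕ => ((n : ℝ) + 1) ^ a) (1 / a)) ∧
    (∀ b : ℝ, 1 < b → ExpLe (fun n : ℕ => b ^ n) 0) := by
  refine ⟨fun d hd v τ ρ hv hτ hE hρ => ?_, fun κ hκ => Pool.Agent.Y854.GM.expLe_pow κ hκ,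
    fun b hb => Pool.Agent.Y854.GM.expLe_geom b hb⟩
  have hd4 : (4 : ℝ) ≤ d := by exact_mod_cast hd
  have hs : 0 ≤ 4 * (d : ℝ) - 2 := by linarith
  obtain ⟨E, hE1, hE2⟩ := Pool.Agent.X174.winFam (κ := Mon d) (Q := MvPolynomial (Fin 2) ℤ)
    (fun F m => ((F.coeff (mon m) : ℤ) : ℝ))
    (fun T => {F : MvPolynomial (Fin 2) ℤ | (F.totalDegree = d ∧ ∀ m, |F.coeff m| ≤ ((⌊T⌋₊ : ℕ) : ℤ)) ∧
      Irreducible (MvPolynomial.map (Int.castRingHom ℚ) F) ∧
      Squarefree (MvPolynomial.map (Int.castRingHom ℚ) (MvPolynomial.homogeneousComponent d F)) ∧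
      ∃ x y : ℤ, MvPolynomial.eval ![x, y] F = 0 ∧
        ((d + 1) * ∑ m ∈ F.support, (F.coeff m).natAbs) ^ (10 ^ 11 * 36 ^ d * (d + 1) ^ 13)
          < max x.natAbs y.natAbs}) (s := 4 * (d : ℝ) - 2)
    (C := 10 ^ 9 * 36 ^ d * ((d : ℝ) + 1) ^ 8 * 3 ^ (4 * d - 2)) hs
    (fun T hT => by
      obtain ⟨h1, h2⟩ := FewExceptionalCurves.result d hd ⌊T⌋₊
      have hfin : {F : MvPolynomial (Fin 2) ℤ | F.totalDegree ≤ d ∧ ∀ m, |F.coeff m| ≤ ((⌊T⌋₊ : ℕ) : ℤ)}.Finite :=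
        Set.finite_of_ncard_ne_zero (by
          rw [h1]
          positivity)
      refine ⟨hfin.subset (fun F hF => ⟨hF.1.1.le, hF.1.2⟩), ?_⟩
      have h3 : ((Set.ncard {F : MvPolynomial (Fin 2) ℤ | (F.totalDegree = d ∧ ∀ m, |F.coeff m| ≤ ((⌊T⌋₊ : ℕ) : ℤ)) ∧
          Irreducible (MvPolynomial.map (Int.castRingHom ℚ) F) ∧
          Squarefree (MvPolynomial.map (Int.castRingHom ℚ) (MvPolynomial.homogeneousComponent d F)) ∧
          ∃ x y : ℤ, MvPolynomial.eval ![x, y] F = 0 ∧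
            ((d + 1) * ∑ m ∈ F.support, (F.coeff m).natAbs) ^ (10 ^ 11 * 36 ^ d * (d + 1) ^ 13)
              < max x.natAbs y.natAbs} : ℕ) : ℝ) ≤
            10 ^ 9 * 36 ^ d * ((d : ℝ) + 1) ^ 8 * (2 * (⌊T⌋₊ : ℝ) + 1) ^ (4 * d - 2) := by exact_mod_cast h2
      refine h3.trans ?_
      have h4 : (2 * (⌊T⌋₊ : ℝ) + 1) ^ (4 * d - 2) ≤ 3 ^ (4 * d - 2) * T ^ (4 * (d : ℝ) - 2) := by
        have h5 : (4 * (d : ℝ) - 2) = ((4 * d - 2 : ℕ) : ℝ) := by
          rw [Nat.cast_sub (by omega)]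
          push_cast
          ring
        rw [h5, Real.rpow_natCast, ← mul_pow]
        apply pow_le_pow_left₀ (by positivity)
        have := Nat.floor_le (show (0 : ℝ) ≤ T by linarith)
        linarith
      calc 10 ^ 9 * 36 ^ d * ((d : ℝ) + 1) ^ 8 * (2 * (⌊T⌋₊ : ℝ) + 1) ^ (4 * d - 2)
          ≤ 10 ^ 9 * 36 ^ d * ((d : ℝ) + 1) ^ 8 * (3 ^ (4 * d - 2) * T ^ (4 * (d : ℝ) - 2)) :=
            mul_le_mul_of_nonneg_left h4 (by positivity)
        _ = _ := by ring)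
    hv hτ hE hρ
  refine ⟨E, hE1, fun x hx => ?_⟩
  obtain ⟨R, hR, hRc⟩ := Pool.Agent.X174.le_of_cube x
  obtain ⟨i₁, hi₁⟩ := hE2 x hx R hR
  refine ⟨i₁, fun i hi F hF hirr hsq a b hab => ?_⟩
  by_contra hcon
  push Not at hcon
  refine hi₁ i hi F hF.2 ⟨⟨hF.1, fun m => ?_⟩, hirr, hsq, a, b, hab, hcon⟩
  by_cases hm : m 0 + m 1 ≤ d
  · obtain ⟨p, rfl⟩ := exists_mon m hm
    have h3 := hRc (fun m : Mon d => ((F.coeff (mon m) : ℤ) : ℝ)) (v i) ρ (hv i) hρ hF.2 p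
    rw [Int.abs_eq_natAbs]
    have h4 : (((F.coeff (mon p)).natAbs : ℕ) : ℝ) ≤ R * v i := by
      rw [Nat.cast_natAbs, Int.cast_abs]
      exact h3
    exact_mod_cast Nat.le_floor h4
  · have h1 : F.coeff m = 0 := by
      apply MvPolynomial.coeff_eq_zero_of_totalDegree_lt
      rw [hF.1]
      have h2 : ∑ i ∈ m.support, m i = ∑ i : Fin 2, m i :=
        Finset.sum_subset (Finset.subset_univ _) (fun i _ hi => by simpa using hi)
      rw [h2, Fin.sum_univ_two]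
      omega
    rw [h1, abs_zero]
    positivity

end Pool.Agent.Results.MP_2d259b_nt.CurvesInCubes
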