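import Pool.Agent.X39.Win.Basic
import Pool.Agent.Results.MP_2d259b_nt.FibresOffPolynomialValues

/-!
# Explicit bounds for the integer points of all curves `F(x, y) = t`, `t` in windows, for all `F` at once

Let `v ≥ 1` be a sequence with exponent of convergence at most `τ` (for `v_n = n ^ κ` this is `1 / κ`,
for `v_n = b ^ n` it is `0`) and `θ < 1`. For `α > 0` outside sets of small Hausdorff dimension the
following holds for EVERY `F ∈ ℤ[x, y]` of degree `d ≥ 4` with a squarefree leading form: for all but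
finitely many `n`, for ALL integers `t` with `||t| - α v_n| ≤ v_n ^ θ`, the integer points of the curve
`F(x, y) = t` are bounded by an explicit power of `(d + 1) (h(F) + |t|)`.
-/

set_option autoImplicit false

open MeasureTheory

namespace Pool.Agent.Results.MP_2d259b_nt.IntegralPointsInWindows

/-- the exponent of convergence of the sequence `v` is at most `τ` -/
def ExpLe (v : ℕ → ℝ) (τ : ℝ) : Prop := ∀ t : ℝ, τ < t → Summable (fun n : ℕ => (v n) ^ (-t))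

/-- `F` has total degree `d` and a leading form (the homogeneous component of degree `d`) that is
squarefree over `ℚ` -/
def Admissible (d : ℕ) (F : MvPolynomial (Fin 2) ℤ) : Prop :=
  F.totalDegree = d ∧ Squarefree (MvPolynomial.map (Int.castRingHom ℚ)
    (MvPolynomial.homogeneousComponent d F))

/-- all integer points of `F(x, y) = t` satisfy
`max (|x|, |y|) ≤ ((d + 1) (h(F) + |t|)) ^ C`, `C = 10^17 1296^d (d+1)^15`, where `h(F)` is the sum of
the absolute values of the coefficients of `F` -/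
def SmallPoints (d : ℕ) (F : MvPolynomial (Fin 2) ℤ) (t : ℤ) : Prop :=
  ∀ x y : ℤ, MvPolynomial.eval ![x, y] F = t →
    max x.natAbs y.natAbs ≤ ((d + 1) * (∑ m ∈ F.support, (F.coeff m).natAbs + t.natAbs)) ^
      (10 ^ 17 * 1296 ^ d * (d + 1) ^ 15)

lemma step (d : ℕ) (hd : 4 ≤ d) (F : MvPolynomial (Fin 2) ℤ) (hF : Admissible d F)
    {v : ℕ → ℝ} {τ θ : ℝ} (hv : ∀ n, 1 ≤ v n) (hτ : 0 ≤ τ) (hE : ExpLe v τ) (hθ : θ < 1) :
    ∃ E : Set ℝ, dimH E ≤ ENNReal.ofReal ((1 / (d : ℝ) + τ) / (1 - θ)) ∧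
      ∀ α : ℝ, 0 < α → α ∉ E → ∃ n₀ : ℕ, ∀ n : ℕ, n₀ ≤ n → ∀ t : ℤ,
        |(|(t : ℝ)|) - α * v n| ≤ (v n) ^ θ → SmallPoints d F t := by
  obtain ⟨-, hcount⟩ := FibresOffPolynomialValues.result d hd F hF.1 hF.2
  set B : ℕ := 10 ^ 9 * 36 ^ d * (d + 1) ^ 9 with hB
  have hd0 : (0 : ℝ) < d := by
    have : (4 : ℝ) ≤ d := by exact_mod_cast hd
    linarith
  obtain ⟨E, h1, h2⟩ := Pool.Agent.Y854.GM.windows {t : ℤ | ¬ SmallPoints d F t}
    (fun t : ℤ => (|(t : ℝ)|)) (θ := θ) (s := 1 / (d : ℝ)) hv hτ hE (by positivity) hθ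
    (fun ε hε => by
      refine ⟨5 * (B : ℝ), fun X hX => ?_⟩
      have hX0 : 0 < X := by linarith
      set m : ℕ := ⌈X ^ (1 / (d : ℝ))⌉₊ with hm
      have hm1 : X ^ (1 / (d : ℝ)) ≤ m := Nat.le_ceil _
      have hr1 : 1 ≤ X ^ (1 / (d : ℝ)) := Real.one_le_rpow hX (by positivity)
      have hm2 : (m : ℝ) ≤ X ^ (1 / (d : ℝ)) + 1 := (Nat.ceil_lt_add_one (by positivity)).le
      have hXm : X ≤ (m : ℝ) ^ d := by
        have h3 : X = (X ^ (1 / (d : ℝ))) ^ d := by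
          rw [one_div]
          exact (Real.rpow_inv_natCast_pow hX0.le (by omega)).symm
        calc X = (X ^ (1 / (d : ℝ))) ^ d := h3
          _ ≤ _ := pow_le_pow_left₀ (by positivity) hm1 d
      have hsub : {t | t ∈ {t : ℤ | ¬ SmallPoints d F t} ∧ (|(t : ℝ)|) ≤ X} ⊆
          {t : ℤ | |t| ≤ (m : ℤ) ^ d ∧ ∃ x y : ℤ, MvPolynomial.eval ![x, y] F = t ∧
            ((d + 1) * (∑ m ∈ F.support, (F.coeff m).natAbs + t.natAbs)) ^
              (10 ^ 17 * 1296 ^ d * (d + 1) ^ 15) < max x.natAbs y.natAbs} := by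
        rintro t ⟨h3, h4⟩
        refine ⟨?_, ?_⟩
        · have h5 : (|(t : ℝ)|) ≤ (m : ℝ) ^ d := h4.trans hXm
          exact_mod_cast h5
        · by_contra hcon
          apply h3
          intro x y hxy
          by_contra hlt
          exact hcon ⟨x, y, hxy, not_le.1 hlt⟩
      have h6 := hcount m
      have hfin := Set.finite_of_encard_le_coe h6
      have h7 : Set.ncard {t : ℤ | |t| ≤ (m : ℤ) ^ d ∧ ∃ x y : ℤ, MvPolynomial.eval ![x, y] F = t ∧
            ((d + 1) * (∑ m ∈ F.support, (F.coeff m).natAbs + t.natAbs)) ^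
              (10 ^ 17 * 1296 ^ d * (d + 1) ^ 15) < max x.natAbs y.natAbs} ≤ B * (2 * m + 1) := by
        rw [← hfin.cast_ncard_eq] at h6
        exact_mod_cast h6
      refine ⟨hfin.subset hsub, ?_⟩
      have h8 := (Set.ncard_le_ncard hsub hfin).trans h7
      have h9 : X ^ (1 / (d : ℝ)) ≤ X ^ (1 / (d : ℝ) + ε) :=
        Real.rpow_le_rpow_of_exponent_le hX (by linarith)
      calc (({t | t ∈ {t : ℤ | ¬ SmallPoints d F t} ∧ (|(t : ℝ)|) ≤ X}.ncard : ℕ) : ℝ)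
          ≤ ((B * (2 * m + 1) : ℕ) : ℝ) := by exact_mod_cast h8
        _ = (B : ℝ) * (2 * (m : ℝ) + 1) := by push_cast; ring
        _ ≤ (B : ℝ) * (5 * X ^ (1 / (d : ℝ) + ε)) := by
            refine mul_le_mul_of_nonneg_left ?_ (Nat.cast_nonneg _)
            linarith
        _ = _ := by ring)
  refine ⟨E, h1, fun α hα hαE => ?_⟩
  obtain ⟨n₀, hn⟩ := h2 α hα hαE
  refine ⟨n₀, fun n hn1 t ht => ?_⟩
  by_contra hcon
  exact absurd (hn n hn1 t hcon) (not_lt.2 ht)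

/-- all the polynomials of degree at least `k` at once -/
lemma stepAll (k : ℕ) (hk : 4 ≤ k) {v : ℕ → ℝ} {τ θ : ℝ} (hv : ∀ n, 1 ≤ v n) (hτ : 0 ≤ τ)
    (hE : ExpLe v τ) (hθ : θ < 1) :
    ∃ E : Set ℝ, dimH E ≤ ENNReal.ofReal ((1 / (k : ℝ) + τ) / (1 - θ)) ∧
      ∀ α : ℝ, 0 < α → α ∉ E → ∀ (d : ℕ) (F : MvPolynomial (Fin 2) ℤ), k ≤ d → Admissible d F →
        ∃ n₀ : ℕ, ∀ n : ℕ, n₀ ≤ n → ∀ t : ℤ, |(|(t : ℝ)|) - α * v n| ≤ (v n) ^ θ →
          SmallPoints d F t := by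
  have h1θ : 0 < 1 - θ := by linarith
  have hk0 : (0 : ℝ) < k := by
    have : (4 : ℝ) ≤ k := by exact_mod_cast hk
    linarith
  choose E hE1 hE2 using fun p : {p : ℕ × MvPolynomial (Fin 2) ℤ // k ≤ p.1 ∧ Admissible p.1 p.2} =>
    step p.1.1 (hk.trans p.2.1) p.1.2 p.2.2 hv hτ hE hθ
  have hc : Countable (MvPolynomial (Fin 2) ℤ) := by
    rw [← Cardinal.mk_le_aleph0_iff]
    refine (MvPolynomial.cardinalMk_le_max (σ := Fin 2) (R := ℤ)).trans ?_
    simp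
  refine ⟨⋃ p, E p, ?_, fun α hα hαE d F hd hF => ?_⟩
  · rw [dimH_iUnion]
    refine iSup_le fun p => (hE1 p).trans ?_
    apply ENNReal.ofReal_le_ofReal
    have h2 : (k : ℝ) ≤ p.1.1 := by exact_mod_cast p.2.1
    have h3 : 1 / (p.1.1 : ℝ) ≤ 1 / (k : ℝ) := one_div_le_one_div_of_le hk0 h2
    exact div_le_div_of_nonneg_right (by linarith) h1θ.le
  · exact hE2 ⟨(d, F), hd, hF⟩ α hα (fun h => hαE (Set.mem_iUnion.2 ⟨_, h⟩))

/-- **Integer points of plane curves in windows.** Let `v ≥ 1` be a sequence with exponent of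
convergence at most `τ ≥ 0` and `θ < 1`.

1. For every `k ≥ 4` there is a set `E` of Hausdorff dimension at most `(1 / k + τ) / (1 - θ)` such that
for all `α > 0` outside `E` the following holds for EVERY `F ∈ ℤ[x, y]` of degree `d ≥ k` with a
squarefree leading form: for all but finitely many `n` and ALL integers `t` with
`||t| - α v_n| ≤ v_n ^ θ`, all integer points of the curve `F(x, y) = t` satisfy
`max (|x|, |y|) ≤ ((d + 1) (h(F) + |t|)) ^ C`, `C = 10^17 1296^d (d+1)^15`.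

2. There is a set `E` of Hausdorff dimension at most `τ / (1 - θ)` such that for all `α > 0` outside `E`
this holds for every `F` of degree at least some `k`, which depends on `α`.

3. If `τ + θ < 3 / 4`, then for almost all `α > 0` it holds for all `F` of degree `d ≥ 4` with a
squarefree leading form.

4. The sequences `v_n = (n + 1) ^ κ` and `v_n = b ^ n` have exponent of convergence at most `1 / κ`
and `0`. -/
theorem result :
    (∀ (v : ℕ → ℝ) (τ θ : ℝ) (k : ℕ), (∀ n, 1 ≤ v n) → 0 ≤ τ → ExpLe v τ → θ < 1 → 4 ≤ k →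
      ∃ E : Set ℝ, dimH E ≤ ENNReal.ofReal ((1 / (k : ℝ) + τ) / (1 - θ)) ∧
        ∀ α : ℝ, 0 < α → α ∉ E → ∀ (d : ℕ) (F : MvPolynomial (Fin 2) ℤ), k ≤ d → Admissible d F →
          ∃ n₀ : ℕ, ∀ n : ℕ, n₀ ≤ n → ∀ t : ℤ, |(|(t : ℝ)|) - α * v n| ≤ (v n) ^ θ →
            SmallPoints d F t) ∧
    (∀ (v : ℕ → ℝ) (τ θ : ℝ), (∀ n, 1 ≤ v n) → 0 ≤ τ → ExpLe v τ → θ < 1 →
      ∃ E : Set ℝ, dimH E ≤ ENNReal.ofReal (τ / (1 - θ)) ∧
        ∀ α : ℝ, 0 < α → α ∉ E → ∃ k : ℕ, ∀ (d : ℕ) (F : MvPolynomial (Fin 2) ℤ), k ≤ d →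
          Admissible d F → ∃ n₀ : ℕ, ∀ n : ℕ, n₀ ≤ n → ∀ t : ℤ,
            |(|(t : ℝ)|) - α * v n| ≤ (v n) ^ θ → SmallPoints d F t) ∧
    (∀ (v : ℕ → ℝ) (τ θ : ℝ), (∀ n, 1 ≤ v n) → 0 ≤ τ → ExpLe v τ → τ + θ < 3 / 4 →
      ∀ᵐ α : ℝ, 0 < α → ∀ (d : ℕ) (F : MvPolynomial (Fin 2) ℤ), 4 ≤ d → Admissible d F →
        ∃ n₀ : ℕ, ∀ n : ℕ, n₀ ≤ n → ∀ t : ℤ, |(|(t : ℝ)|) - α * v n| ≤ (v n) ^ θ →
          SmallPoints d F t) ∧
    (∀ κ : ℝ, 0 < κ → ExpLe (fun n : ℕ => ((n : ℝ) + 1) ^ κ) (1 / κ)) ∧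
    (∀ b : ℝ, 1 < b → ExpLe (fun n : ℕ => b ^ n) 0) := by
  refine ⟨fun v τ θ k hv hτ hE hθ hk => stepAll k hk hv hτ hE hθ, fun v τ θ hv hτ hE hθ => ?_,
    fun v τ θ hv hτ hE hθ => ?_,
    fun κ hκ => Pool.Agent.Y854.GM.expLe_pow κ hκ, fun b hb => Pool.Agent.Y854.GM.expLe_geom b hb⟩
  · choose E hE1 hE2 using fun k : ℕ => stepAll (k + 4) (by omega) hv hτ hE hθ
    refine ⟨⋂ k, E k, ?_, fun α hα hαE => ?_⟩
    · have h1 := Pool.Agent.X39.Win.inter_dim (τ := τ) (θ := θ) (s := 0) E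
        (fun k : ℕ => 1 / ((k : ℝ) + 4)) (Pool.Agent.X39.Win.tendsto_inv 4) (fun k => by
          have h2 := hE1 k
          push_cast at h2
          exact h2)
      rwa [zero_add] at h1
    · rw [Set.mem_iInter] at hαE
      push Not at hαE
      obtain ⟨k, hk⟩ := hαE
      exact ⟨k + 4, hE2 k α hα hk⟩
  · have hθ1 : θ < 1 := by linarith
    obtain ⟨E, h1, h2⟩ := stepAll 4 le_rfl hv hτ hE hθ1
    refine Pool.Agent.X39.Win.ae_of h1 ?_ h2
    rw [div_lt_one (by linarith)]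
    push_cast
    linarith

end Pool.Agent.Results.MP_2d259b_nt.IntegralPointsInWindows
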