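import Mathlib
import Pool.Agent.X257.EX.Triples

/-!
# Explicit bounds for the integer points on families of plane curves of every degree

For a positive proportion of the triples `(a, b, c)` of positive integers the integer points of all
the plane curves `h(x, y)² = (g(x) + a) (g(x) + b) (g(x) + c)`, `g ∈ ℤ[x]` not constant and
`h ∈ ℤ[x, y]` arbitrary, and of all the plane curves `y² = (g(x, y) + a) (g(x, y) + b) (g(x, y) + c)`,
`g ∈ ℤ[x, y]` arbitrary, are bounded by explicit polynomials in the coefficients, if their number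
is finite.
-/

set_option autoImplicit false

namespace Pool.Agent.Results.MP_2d259b_nt.LinearBoundsForCovers

open Polynomial Finset

/-- the largest absolute value of a coefficient -/
def height (g : ℤ[X]) : ℕ := g.support.sup fun i => (g.coeff i).natAbs

/-- the sum of the absolute values of the coefficients of `h(x, y) = ∑ j, h_j(x) y ^ j` -/
noncomputable def length (h : ℤ[X][X]) : ℕ :=
  ∑ j ∈ h.support, ∑ i ∈ (h.coeff j).support, ((h.coeff j).coeff i).natAbs

/-- the degree in `x` of `h(x, y) = ∑ j, h_j(x) y ^ j` -/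
noncomputable def degX (h : ℤ[X][X]) : ℕ := h.support.sup fun j => (h.coeff j).natDegree

/-- the value `h(x, y) = ∑ j, h_j(x) y ^ j` -/
noncomputable def val (h : ℤ[X][X]) (x y : ℤ) : ℤ := ∑ j ∈ h.support, (h.coeff j).eval x * y ^ j

/-- the integer points of `h(x, y)² = (g(x) + a) (g(x) + b) (g(x) + c)` -/
def ZI (g : ℤ[X]) (h : ℤ[X][X]) (a b c : ℤ) : Set (ℤ × ℤ) :=
  {p | (val h p.1 p.2) ^ 2 = (g.eval p.1 + a) * (g.eval p.1 + b) * (g.eval p.1 + c)}

/-- the integer points of `y² = (g(x, y) + a) (g(x, y) + b) (g(x, y) + c)` -/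
def ZII (g : ℤ[X][X]) (a b c : ℤ) : Set (ℤ × ℤ) :=
  {p | p.2 ^ 2 = (val g p.1 p.2 + a) * (val g p.1 p.2 + b) * (val g p.1 p.2 + c)}

/-- the property of the triples -/
def Good (a b c : ℤ) : Prop :=
  (∀ (g : ℤ[X]) (h : ℤ[X][X]), 0 < g.natDegree → (ZI g h a b c).Finite →
    ∀ p ∈ ZI g h a b c, |p.1| ≤ height g + max a (max b c) ∧
      |p.2| ≤ length h * (height g + max a (max b c)) ^ degX h) ∧
  ∀ g : ℤ[X][X], (ZII g a b c).Finite →
    ∀ p ∈ ZII g a b c, |p.1| ≤ height (g.coeff 0) + max a (max b c) ∧ p.2 = 0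

lemma le_height (g : ℤ[X]) (i : ℕ) : (g.coeff i).natAbs ≤ height g := by
  by_cases h : i ∈ g.support
  · exact le_sup (f := fun i => (g.coeff i).natAbs) h
  · rw [notMem_support_iff.1 h]
    simp

lemma height_add_C (g : ℤ[X]) (a : ℤ) (ha : 0 ≤ a) : (height (g + C a) : ℤ) ≤ height g + a := by
  have : height (g + C a) ≤ height g + a.natAbs := by
    unfold height
    refine Finset.sup_le fun i _ => ?_
    rw [coeff_add, coeff_C]
    have h1 := le_height g i
    unfold height at h1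
    split_ifs with h2
    · have := Int.natAbs_add_le (g.coeff i) a
      omega
    · rw [add_zero]; omega
  have h2 : (a.natAbs : ℤ) = a := Int.natAbs_of_nonneg ha
  have h3 : (height (g + C a) : ℤ) ≤ height g + a.natAbs := by exact_mod_cast this
  omega

/-- an integer root of a nonzero polynomial is bounded by the height -/
lemma root_le {P : ℤ[X]} (hP : P ≠ 0) {x : ℤ} (hx : P.eval x = 0) : |x| ≤ height P := by
  by_cases hx0 : x = 0
  · rw [hx0]; simp
  obtain ⟨Q, hQ, hnd⟩ := exists_eq_pow_rootMultiplicity_mul_and_not_dvd P hP 0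
  obtain ⟨n, hn⟩ : ∃ n, n = rootMultiplicity 0 P := ⟨_, rfl⟩
  rw [← hn, C_0, sub_zero] at hQ
  rw [C_0, sub_zero] at hnd
  have hQ0 : Q.coeff 0 ≠ 0 := fun h => hnd (X_dvd_iff.2 h)
  have h1 : P.coeff n = Q.coeff 0 := by
    rw [hQ, coeff_X_pow_mul', if_pos (le_refl n), Nat.sub_self]
  have h2 : Q.eval x = 0 := by
    rw [hQ, eval_mul, eval_pow, eval_X] at hx
    exact (mul_eq_zero.1 hx).resolve_left (pow_ne_zero n hx0)
  have h3 : x ∣ Q.coeff 0 := by
    have := sub_dvd_eval_sub x 0 Q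
    rw [h2, sub_zero, zero_sub, ← coeff_zero_eq_eval_zero] at this
    exact (dvd_neg).1 this
  have h4 : x.natAbs ≤ (P.coeff n).natAbs := by
    rw [h1]
    exact Nat.le_of_dvd (Int.natAbs_pos.2 hQ0) (Int.natAbs_dvd_natAbs.2 h3)
  have h5 := h4.trans (le_height P n)
  rw [Int.abs_eq_natAbs]
  exact_mod_cast h5

/-- the polynomial `h(x, ·)` -/
noncomputable def sp (h : ℤ[X][X]) (x : ℤ) : ℤ[X] := h.map (evalRingHom x)

lemma val_eq (h : ℤ[X][X]) (x y : ℤ) : val h x y = (sp h x).eval y := by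
  unfold val sp
  rw [eval_map, eval₂_eq_sum]
  rfl

lemma eval_le (g : ℤ[X]) (x : ℤ) (M : ℕ) (hM : x.natAbs ≤ M) (hM1 : 1 ≤ M) (d : ℕ)
    (hd : g.natDegree ≤ d) :
    (g.eval x).natAbs ≤ (∑ i ∈ g.support, (g.coeff i).natAbs) * M ^ d := by
  rw [eval_eq_sum, sum_def, sum_mul]
  refine (Int.natAbs_sum_le _ _).trans (sum_le_sum fun i hi => ?_)
  rw [Int.natAbs_mul, Int.natAbs_pow]
  have h1 : i ≤ d := (le_natDegree_of_mem_supp i hi).trans hd
  refine Nat.mul_le_mul (le_refl _) ?_
  exact (Nat.pow_le_pow_left hM i).trans (Nat.pow_le_pow_right hM1 h1)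

lemma height_sp (h : ℤ[X][X]) (x : ℤ) (M : ℕ) (hM : x.natAbs ≤ M) (hM1 : 1 ≤ M) :
    height (sp h x) ≤ length h * M ^ degX h := by
  unfold height
  refine Finset.sup_le fun j hj => ?_
  have e : (sp h x).coeff j = (h.coeff j).eval x := by
    unfold sp
    rw [coeff_map]
    rfl
  rw [e]
  have hjs : j ∈ h.support := by
    rw [mem_support_iff]
    intro h0
    rw [mem_support_iff, e, h0, eval_zero] at hj
    exact hj rfl
  have hd : (h.coeff j).natDegree ≤ degX h := by
    unfold degX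
    exact le_sup (f := fun j => (h.coeff j).natDegree) hjs
  refine (eval_le _ x M hM hM1 _ hd).trans (Nat.mul_le_mul ?_ (le_refl _))
  unfold length
  exact single_le_sum (f := fun j => ∑ i ∈ (h.coeff j).support, ((h.coeff j).coeff i).natAbs)
    (fun _ _ => Nat.zero_le _) hjs

theorem good_of {a b c : ℤ} (H : Pool.Agent.X257.EX.NT a b c) : Good a b c := by
  obtain ⟨ha, hb, hc, -, -, -, hN⟩ := H
  have key : ∀ z t : ℤ, z ^ 2 = (t + a) * (t + b) * (t + c) →
      z = 0 ∧ ∃ r : ℤ, 0 < r ∧ r ≤ max a (max b c) ∧ (t + r = 0 ∧ (r = a ∨ r = b ∨ r = c)) := by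
    intro z t h
    have h1 := hN (t : ℚ) (z : ℚ) (by exact_mod_cast h)
    have h2 : z = 0 := by exact_mod_cast h1
    refine ⟨h2, ?_⟩
    rw [h2, zero_pow two_ne_zero] at h
    rcases mul_eq_zero.1 h.symm with h3 | h3
    · rcases mul_eq_zero.1 h3 with h4 | h4
      · exact ⟨a, ha, le_max_left _ _, h4, Or.inl rfl⟩
      · exact ⟨b, hb, (le_max_left _ _).trans (le_max_right _ _), h4, Or.inr (Or.inl rfl)⟩
    · exact ⟨c, hc, (le_max_right _ _).trans (le_max_right _ _), h3, Or.inr (Or.inr rfl)⟩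
  have zer : ∀ t r : ℤ, t + r = 0 → (r = a ∨ r = b ∨ r = c) →
      (t + a) * (t + b) * (t + c) = 0 := by
    rintro t r h (rfl | rfl | rfl)
    · rw [h, zero_mul, zero_mul]
    · rw [h, mul_zero, zero_mul]
    · rw [h, mul_zero]
  refine ⟨fun g h hg hfin p hp => ?_, fun g hfin p hp => ?_⟩
  · have hp' : (val h p.1 p.2) ^ 2 = (g.eval p.1 + a) * (g.eval p.1 + b) * (g.eval p.1 + c) := hp
    obtain ⟨h1, r, hr0, hr1, hr2, hr3⟩ := key _ _ hp'
    have hne : g + C r ≠ 0 := by
      intro h0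
      have : (g + C r).natDegree = g.natDegree := natDegree_add_C
      rw [h0, natDegree_zero] at this
      omega
    have hx : |p.1| ≤ height g + max a (max b c) := by
      have h2 := root_le hne (x := p.1) (by rw [eval_add, eval_C]; exact hr2)
      have h3 := height_add_C g r hr0.le
      omega
    refine ⟨hx, ?_⟩
    obtain ⟨M, hM⟩ : ∃ M : ℕ, (M : ℤ) = height g + max a (max b c) := by
      refine ⟨(height g + max a (max b c)).toNat, Int.toNat_of_nonneg ?_⟩
      have := le_max_left a (max b c)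
      omega
    have hM1 : 1 ≤ M := by
      have := le_max_left a (max b c)
      omega
    by_cases h0 : sp h p.1 = 0
    · exfalso
      refine Set.infinite_of_injective_forall_mem (f := fun n : ℕ => (p.1, (n : ℤ)))
        (fun m n hmn => by exact_mod_cast (Prod.mk.inj hmn).2) (fun n => ?_) hfin
      show (val h p.1 (n : ℤ)) ^ 2 = _
      rw [val_eq, h0, eval_zero, zer _ r hr2 hr3, zero_pow two_ne_zero]
    · rw [val_eq] at h1
      have h2 := root_le h0 h1
      have hx' := hx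
      rw [← hM, Int.abs_eq_natAbs] at hx'
      have h3 := height_sp h p.1 M (by exact_mod_cast hx') hM1
      rw [← hM]
      exact h2.trans (by exact_mod_cast h3)
  · have hp' : p.2 ^ 2 = (val g p.1 p.2 + a) * (val g p.1 p.2 + b) * (val g p.1 p.2 + c) := hp
    obtain ⟨h1, r, hr0, hr1, hr2, hr3⟩ := key _ _ hp'
    refine ⟨?_, h1⟩
    have v0 : ∀ x : ℤ, val g x 0 = (g.coeff 0).eval x := by
      intro x
      rw [val_eq, ← coeff_zero_eq_eval_zero]
      unfold sp
      rw [coeff_map]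
      rfl
    rw [h1, v0] at hr2
    have hne : g.coeff 0 + C r ≠ 0 := by
      intro h0
      refine Set.infinite_of_injective_forall_mem (f := fun n : ℕ => ((n : ℤ), (0 : ℤ)))
        (fun m n hmn => by exact_mod_cast (Prod.mk.inj hmn).1) (fun n => ?_) hfin
      show (0 : ℤ) ^ 2 = (val g (n : ℤ) 0 + a) * (val g (n : ℤ) 0 + b) * (val g (n : ℤ) 0 + c)
      have h2 : (g.coeff 0).eval (n : ℤ) + r = 0 := by
        have := congrArg (eval (n : ℤ)) h0
        rwa [eval_add, eval_C, eval_zero] at this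
      rw [v0, zer _ r h2 hr3, zero_pow two_ne_zero]
    have h2 := root_le hne (x := p.1) (by rw [eval_add, eval_C]; exact hr2)
    have h3 := height_add_C (g.coeff 0) r hr0.le
    omega

/-- **Theorem.** A positive proportion of the triples of integers `1 ≤ a, b, c ≤ N` is good: for all
`g ∈ ℤ[x]` not constant and `h ∈ ℤ[x, y]`, if the curve `h(x, y)² = (g(x) + a) (g(x) + b) (g(x) + c)`
has only finitely many integer points, then these satisfy `|x| ≤ H` and `|y| ≤ length(h) H ^ (deg_x h)`,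
where `H = height(g) + max(a, b, c)`; and for all `g ∈ ℤ[x, y]`, if the curve
`y² = (g(x, y) + a) (g(x, y) + b) (g(x, y) + c)` has only finitely many integer points, then these
satisfy `y = 0` and `|x| ≤ height(g(x, 0)) + max(a, b, c)`. -/
theorem result : ∃ κ : ℝ, 0 < κ ∧ ∃ N₀ : ℕ, ∀ N : ℕ, N₀ ≤ N →
    κ * (N : ℝ) ^ 3 ≤ (({t : ℤ × ℤ × ℤ | (1 ≤ t.1 ∧ t.1 ≤ N) ∧ (1 ≤ t.2.1 ∧ t.2.1 ≤ N) ∧
      (1 ≤ t.2.2 ∧ t.2.2 ≤ N) ∧ Good t.1 t.2.1 t.2.2}.ncard : ℕ) : ℝ) :=
  Pool.Agent.X257.EX.triples Good fun _ _ _ h => good_of h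

end Pool.Agent.Results.MP_2d259b_nt.LinearBoundsForCovers
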