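import Pool.Agent.Results.MP_2d259b_nt.AlmostAllThroughPoints
import Pool.Agent.Results.MP_2d259b_nt.FewExceptionalCurves
import Pool.Agent.X174.WinRat

/-!
# ALL plane curves of degree `d ≥ 4` with coefficients in cubes around thin sequences have no integer point

Let `d ≥ 4`. The polynomials of degree at most `d` in two variables have `N = (d + 1) (d + 2) / 2` coefficients. For every
sequence `v ≥ 1` of exponent of convergence at most `τ` (for `v_i = i ^ a` this is `1 / a`, for `v_i = b ^ i` it is `0`) and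
`ρ < 1`, outside a set of `x ∈ ℝ^N` of Hausdorff dimension at most `(N - 1 / (10 ^ 4 d) + τ) / (1 - ρ)`, for all but
finitely many `i` NO `F ∈ ℤ[x, y]` of degree at most `d` with coefficients in the cube with centre `x v_i` and side
`2 v_i ^ ρ` has an integer zero.

The number of exceptions is from the starting result `AlmostAllThroughPoints`.
-/

set_option autoImplicit false

open MvPolynomial

namespace Pool.Agent.Results.MP_2d259b_nt.NoPointsInCubes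

/-- the exponent of convergence of the sequence `v` is at most `τ` -/
def ExpLe (v : ℕ → ℝ) (τ : ℝ) : Prop := ∀ t : ℝ, τ < t → Summable (fun n : ℕ => (v n) ^ (-t))

/-- the exponents `(a, b)` of the monomials `x ^ a y ^ b` of degree at most `d` -/
abbrev Mon (d : ℕ) : Type := {m : Fin (d + 1) × Fin (d + 1) // (m.1 : ℕ) + (m.2 : ℕ) ≤ d}

/-- the monomial `x ^ a y ^ b` -/
noncomputable def mon {d : ℕ} (m : Mon d) : Fin 2 →₀ ℕ := Finsupp.single 0 (m.1.1 : ℕ) + Finsupp.single 1 (m.1.2 : ℕ)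

/-- `F` is of degree at most `d` and the coefficients of `F` differ by at most `δ` from the numbers `y_m` -/
def Near {d : ℕ} (y : Mon d → ℝ) (δ : ℝ) (F : MvPolynomial (Fin 2) ℤ) : Prop :=
  F.totalDegree ≤ d ∧ ∀ m : Mon d, |((F.coeff (mon m) : ℤ) : ℝ) - y m| ≤ δ

lemma exists_mon {d : ℕ} (m : Fin 2 →₀ ℕ) (hm : m 0 + m 1 ≤ d) : ∃ p : Mon d, mon p = m := by
  refine ⟨⟨(⟨m 0, by omega⟩, ⟨m 1, by omega⟩), by simpa using hm⟩, ?_⟩
  ext i
  fin_cases i <;> simp [mon]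

/-- **Theorem.** Let `d ≥ 4` and `N = (d + 1) (d + 2) / 2`. For every sequence `v ≥ 1` of exponent of convergence at most
`τ ≥ 0` and every `ρ < 1` there is a set `E ⊂ ℝ^N` of Hausdorff dimension at most `(N - 1 / (10 ^ 4 d) + τ) / (1 - ρ)` such
that for each `x` outside `E`, for all but finitely many `i`: NO `F ∈ ℤ[x, y]` of degree at most `d` whose coefficients
differ from those of `v_i x` by at most `v_i ^ ρ` has a zero `(a, b) ∈ ℤ²`. The sequences `v_i = (i + 1) ^ a` and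
`v_i = b ^ i` have exponent of convergence at most `1 / a` and `0`. -/
theorem result :
    (∀ d : ℕ, 4 ≤ d → ∀ (v : ℕ → ℝ) (τ ρ : ℝ), (∀ i, 1 ≤ v i) → 0 ≤ τ → ExpLe v τ → ρ < 1 →
      ∃ E : Set (Mon d → ℝ),
        dimH E ≤ ENNReal.ofReal (((((d + 1) * (d + 2) / 2 : ℕ) : ℝ) - 1 / (10 ^ 4 * (d : ℝ)) + τ) / (1 - ρ)) ∧
        ∀ x : Mon d → ℝ, x ∉ E → ∃ i₀ : ℕ, ∀ i : ℕ, i₀ ≤ i →
          ∀ F : MvPolynomial (Fin 2) ℤ, Near (fun m => x m * v i) ((v i) ^ ρ) F →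
            ∀ a b : ℤ, eval ![a, b] F ≠ 0) ∧
    (∀ a : ℝ, 0 < a → ExpLe (fun n : ℕ => ((n : ℝ) + 1) ^ a) (1 / a)) ∧
    (∀ b : ℝ, 1 < b → ExpLe (fun n : ℕ => b ^ n) 0) := by
  refine ⟨fun d hd v τ ρ hv hτ hE hρ => ?_, fun κ hκ => Pool.Agent.Y854.GM.expLe_pow κ hκ,
    fun b hb => Pool.Agent.Y854.GM.expLe_geom b hb⟩
  have hd4 : (4 : ℝ) ≤ d := by exact_mod_cast hd
  set N : ℕ := (d + 1) * (d + 2) / 2 with hN
  have hN1 : (1 : ℝ) ≤ N := by
    have h1 : 1 ≤ N := by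
      rw [hN, Nat.le_div_iff_mul_le (by norm_num)]
      nlinarith
    exact_mod_cast h1
  have hc1 : 1 / (10 ^ 4 * (d : ℝ)) ≤ 1 := by
    rw [div_le_one (by positivity)]
    nlinarith
  have hc0 : 0 ≤ 1 / (10 ^ 4 * (d : ℝ)) := by positivity
  have hs : 0 ≤ (N : ℝ) - 1 / (10 ^ 4 * (d : ℝ)) := by linarith
  set K : ℝ := AlmostAllThroughPoints.K d 0 0 with hK
  obtain ⟨E, hE1, hE2⟩ := Pool.Agent.X174.winFam (κ := Mon d) (Q := MvPolynomial (Fin 2) ℤ)
    (fun F m => ((F.coeff (mon m) : ℤ) : ℝ)) (fun T => AlmostAllThroughPoints.Exc d ⌊T⌋₊ ∅)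
    (s := (N : ℝ) - 1 / (10 ^ 4 * (d : ℝ))) (C := |K| * 3 ^ N) hs
    (fun T hT => by
      have hT1 : 1 ≤ ⌊T⌋₊ := Nat.le_floor (by exact_mod_cast hT)
      obtain ⟨h1, -, h3⟩ := AlmostAllThroughPoints.result ∅ 0 d (by simpa using hd) (by simp) ⌊T⌋₊ hT1
      refine ⟨h1.subset (fun F hF => hF.1), ?_⟩
      rw [Finset.card_empty] at h3
      obtain ⟨h4, -⟩ := FewExceptionalCurves.result d hd ⌊T⌋₊
      have h5 : AlmostAllThroughPoints.Fam d ⌊T⌋₊ ∅ =
          {F : MvPolynomial (Fin 2) ℤ | F.totalDegree ≤ d ∧ ∀ m, |F.coeff m| ≤ ((⌊T⌋₊ : ℕ) : ℤ)} := by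
        ext F
        simp [AlmostAllThroughPoints.Fam]
      rw [h5, h4] at h3
      have hT1' : (1 : ℝ) ≤ (⌊T⌋₊ : ℝ) := by exact_mod_cast hT1
      have hTp : (0 : ℝ) < (⌊T⌋₊ : ℝ) := by linarith
      have hfl : (⌊T⌋₊ : ℝ) ≤ T := Nat.floor_le (by linarith)
      calc ((AlmostAllThroughPoints.Exc d ⌊T⌋₊ ∅).ncard : ℝ)
          ≤ K * (⌊T⌋₊ : ℝ) ^ (-(1 / (10 ^ 4 * (d : ℝ)))) * (((2 * ⌊T⌋₊ + 1) ^ ((d + 1) * (d + 2) / 2) : ℕ) : ℝ) := h3
        _ ≤ |K| * (⌊T⌋₊ : ℝ) ^ (-(1 / (10 ^ 4 * (d : ℝ)))) * (3 * (⌊T⌋₊ : ℝ)) ^ N := by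
            apply mul_le_mul (mul_le_mul_of_nonneg_right (le_abs_self K) (by positivity)) _ (by positivity) (by positivity)
            push_cast
            apply pow_le_pow_left₀ (by positivity)
            linarith
        _ = |K| * 3 ^ N * (⌊T⌋₊ : ℝ) ^ ((N : ℝ) - 1 / (10 ^ 4 * (d : ℝ))) := by
            rw [mul_pow, sub_eq_add_neg, Real.rpow_add hTp, Real.rpow_natCast]
            ring
        _ ≤ |K| * 3 ^ N * T ^ ((N : ℝ) - 1 / (10 ^ 4 * (d : ℝ))) :=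
            mul_le_mul_of_nonneg_left (Real.rpow_le_rpow hTp.le hfl hs) (by positivity))
    hv hτ hE hρ
  refine ⟨E, hE1, fun x hx => ?_⟩
  obtain ⟨R, hR, hRc⟩ := Pool.Agent.X174.le_of_cube x
  obtain ⟨i₁, hi₁⟩ := hE2 x hx R hR
  refine ⟨i₁, fun i hi F hF a b hab => ?_⟩
  refine hi₁ i hi F hF.2 ⟨⟨hF.1, fun m => ?_, by simp⟩, a, b, by simp, hab⟩
  by_cases hm : m 0 + m 1 ≤ d
  · obtain ⟨p, rfl⟩ := exists_mon m hm
    have h3 := hRc (fun m : Mon d => ((F.coeff (mon m) : ℤ) : ℝ)) (v i) ρ (hv i) hρ hF.2 p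
    rw [Int.abs_eq_natAbs]
    have h4 : (((F.coeff (mon p)).natAbs : ℕ) : ℝ) ≤ R * v i := by
      rw [Nat.cast_natAbs, Int.cast_abs]
      exact h3
    exact_mod_cast Nat.le_floor h4
  · have h1 : F.coeff m = 0 := by
      apply MvPolynomial.coeff_eq_zero_of_totalDegree_lt
      have h2 : ∑ i ∈ m.support, m i = ∑ i : Fin 2, m i :=
        Finset.sum_subset (Finset.subset_univ _) (fun i _ hi => by simpa using hi)
      rw [h2, Fin.sum_univ_two]
      have := hF.1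
      omega
    rw [h1, abs_zero]
    positivity

end Pool.Agent.Results.MP_2d259b_nt.NoPointsInCubes
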